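import Mathlib

/-!
# Counting dyadic tilings

For a finite family of boxes, the generating function of the tilings of a region is bounded by `1`
for a small enough weight per box, and this property is inherited by products with the dyadic
intervals.
-/

set_option autoImplicit false

open Finset Classical

namespace Pool.Agent.H582R3

variable {κ B : Type*}

/-- The tilings of the region `X` by boxes from the family `𝓑`; `c P` is the box with label `P`. -/
noncomputable def Til (𝓑 : Finset B) (c : B → Finset κ) (X : Finset κ) : Finset (Finset B) :=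
  𝓑.powerset.filter (fun σ => (∀ P ∈ σ, ∀ Q ∈ σ, P ≠ Q → Disjoint (c P) (c Q)) ∧ σ.biUnion c = X)

/-- The partial tilings inside the region `X`. -/
noncomputable def Sub (𝓑 : Finset B) (c : B → Finset κ) (X : Finset κ) : Finset (Finset B) :=
  𝓑.powerset.filter (fun σ => (∀ P ∈ σ, ∀ Q ∈ σ, P ≠ Q → Disjoint (c P) (c Q)) ∧ σ.biUnion c ⊆ X)

/-- All generating functions at weight `t` are at most one. -/
def Good (𝓑 : Finset B) (c : B → Finset κ) (t : ℝ) : Prop :=
  ∀ X : Finset κ, ∑ σ ∈ Til 𝓑 c X, t ^ σ.card ≤ 1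

theorem mem_Til {𝓑 : Finset B} {c : B → Finset κ} {X : Finset κ} {σ : Finset B} :
    σ ∈ Til 𝓑 c X ↔ σ ⊆ 𝓑 ∧ (∀ P ∈ σ, ∀ Q ∈ σ, P ≠ Q → Disjoint (c P) (c Q)) ∧
      σ.biUnion c = X := by
  simp [Til]

theorem mem_Sub {𝓑 : Finset B} {c : B → Finset κ} {X : Finset κ} {σ : Finset B} :
    σ ∈ Sub 𝓑 c X ↔ σ ⊆ 𝓑 ∧ (∀ P ∈ σ, ∀ Q ∈ σ, P ≠ Q → Disjoint (c P) (c Q)) ∧
      σ.biUnion c ⊆ X := by
  simp [Sub]

/-- The two-colour lemma. -/
theorem two_color {𝓑 : Finset B} {c : B → Finset κ} (hne : ∀ P ∈ 𝓑, (c P).Nonempty)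
    {s : ℝ} (hs : 0 ≤ s) (X : Finset κ) :
    ∑ S ∈ Sub 𝓑 c X, s ^ S.card * ∑ σ ∈ Til 𝓑 c (X \ S.biUnion c), s ^ σ.card ≤
      ∑ ρ ∈ Til 𝓑 c X, (2 * s) ^ ρ.card := by
  have h1 : ∀ ρ : Finset B, (2 * s) ^ ρ.card = ∑ _S ∈ ρ.powerset, s ^ ρ.card := by
    intro ρ
    rw [Finset.sum_const, Finset.card_powerset, mul_pow, nsmul_eq_mul]
    push_cast
    ring
  simp_rw [h1, Finset.mul_sum]
  rw [Finset.sum_sigma', Finset.sum_sigma']
  -- the injection
  set A := (Sub 𝓑 c X).sigma (fun S => Til 𝓑 c (X \ S.biUnion c)) with hA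
  set C := (Til 𝓑 c X).sigma (fun ρ => ρ.powerset) with hC
  have hdisj : ∀ x ∈ A, Disjoint x.1 x.2 := by
    intro x hx
    rw [hA, Finset.mem_sigma, mem_Sub, mem_Til] at hx
    rw [Finset.disjoint_left]
    intro P hP1 hP2
    obtain ⟨y, hy⟩ := hne P (hx.1.1 hP1)
    have h3 : y ∈ x.1.biUnion c := Finset.mem_biUnion.2 ⟨P, hP1, hy⟩
    have h4 : y ∈ x.2.biUnion c := Finset.mem_biUnion.2 ⟨P, hP2, hy⟩
    rw [hx.2.2.2, Finset.mem_sdiff] at h4
    exact h4.2 h3
  have hmem : ∀ x ∈ A, (⟨x.1 ∪ x.2, x.1⟩ : (_ : Finset B) × Finset B) ∈ C := by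
    intro x hx
    rw [hA, Finset.mem_sigma, mem_Sub, mem_Til] at hx
    obtain ⟨⟨h1, h2, h3⟩, h4, h5, h6⟩ := hx
    rw [hC, Finset.mem_sigma, mem_Til]
    refine ⟨⟨Finset.union_subset h1 h4, ?_, ?_⟩, Finset.mem_powerset.2 Finset.subset_union_left⟩
    · have key : ∀ P ∈ x.1, ∀ Q ∈ x.2, Disjoint (c P) (c Q) := by
        intro P hP Q hQ
        rw [Finset.disjoint_left]
        intro y hyP hyQ
        have h7 : y ∈ x.1.biUnion c := Finset.mem_biUnion.2 ⟨P, hP, hyP⟩
        have h8 : y ∈ x.2.biUnion c := Finset.mem_biUnion.2 ⟨Q, hQ, hyQ⟩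
        rw [h6, Finset.mem_sdiff] at h8
        exact h8.2 h7
      intro P hP Q hQ hPQ
      rcases Finset.mem_union.1 hP with hP | hP <;> rcases Finset.mem_union.1 hQ with hQ | hQ
      · exact h2 P hP Q hQ hPQ
      · exact key P hP Q hQ
      · exact (key Q hQ P hP).symm
      · exact h5 P hP Q hQ hPQ
    · rw [Finset.union_biUnion, h6, Finset.union_sdiff_of_subset h3]
  have hinj : Set.InjOn (fun x : (_ : Finset B) × Finset B =>
      (⟨x.1 ∪ x.2, x.1⟩ : (_ : Finset B) × Finset B)) (A : Set ((_ : Finset B) × Finset B)) := by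
    rintro ⟨S, σ⟩ hx ⟨S', σ'⟩ hx' h
    simp only [Sigma.mk.injEq, heq_eq_eq] at h
    obtain ⟨h1, rfl⟩ := h
    have d1 := hdisj _ hx
    have d2 := hdisj _ hx'
    simp only at d1 d2
    have : σ = σ' := by
      have e1 : (S ∪ σ) \ S = σ := by
        rw [Finset.union_sdiff_left]; exact Finset.sdiff_eq_self_of_disjoint d1.symm
      have e2 : (S ∪ σ') \ S = σ' := by
        rw [Finset.union_sdiff_left]; exact Finset.sdiff_eq_self_of_disjoint d2.symm
      rw [← e1, ← e2, h1]
    rw [this]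
  calc ∑ x ∈ A, s ^ x.1.card * s ^ x.2.card
      = ∑ x ∈ A, (fun y : (_ : Finset B) × Finset B => s ^ y.1.card) ⟨x.1 ∪ x.2, x.1⟩ := by
        apply Finset.sum_congr rfl
        intro x hx
        simp only
        rw [Finset.card_union_of_disjoint (hdisj x hx), pow_add]
    _ = ∑ y ∈ A.image (fun x : (_ : Finset B) × Finset B =>
          (⟨x.1 ∪ x.2, x.1⟩ : (_ : Finset B) × Finset B)), s ^ y.1.card := by
        rw [Finset.sum_image hinj]
    _ ≤ ∑ y ∈ C, s ^ y.1.card := by
        apply Finset.sum_le_sum_of_subset_of_nonneg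
        · intro y hy
          obtain ⟨x, hx, rfl⟩ := Finset.mem_image.1 hy
          exact hmem x hx
        · intro y _ _
          positivity

/-! ### Dyadic intervals -/

/-- The dyadic interval `[a 2^k, (a+1) 2^k)`; the label is `(a, k)`. -/
def D (J : ℕ × ℕ) : Finset ℕ := Finset.Ico (J.1 * 2 ^ J.2) ((J.1 + 1) * 2 ^ J.2)

/-- The labels of the dyadic intervals inside the one with label `(a, k)`. -/
def F : ℕ → ℕ → Finset (ℕ × ℕ)
  | 0, a => {(a, 0)}
  | (k + 1), a => insert (a, k + 1) (F k (2 * a) ∪ F k (2 * a + 1))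

theorem D_nonempty (J : ℕ × ℕ) : (D J).Nonempty := by
  rw [D, Finset.nonempty_Ico]
  exact Nat.mul_lt_mul_of_pos_right (Nat.lt_succ_self _) (by positivity)

theorem D_succ (a k : ℕ) : D (a, k + 1) = D (2 * a, k) ∪ D (2 * a + 1, k) := by
  ext x
  simp only [D, Finset.mem_union, Finset.mem_Ico, pow_succ]
  constructor
  · intro h
    by_cases hx : x < (2 * a + 1) * 2 ^ k
    · left; constructor <;> nlinarith [h.1, h.2]
    · right; constructor <;> nlinarith [h.1, h.2]
  · rintro (h | h) <;> constructor <;> nlinarith [h.1, h.2]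

theorem D_disj (a k : ℕ) : Disjoint (D (2 * a, k)) (D (2 * a + 1, k)) := by
  rw [Finset.disjoint_left]
  intro x h1 h2
  simp only [D, Finset.mem_Ico] at h1 h2
  omega

theorem F_le {k a : ℕ} {J : ℕ × ℕ} (h : J ∈ F k a) : J.2 ≤ k := by
  induction k generalizing a with
  | zero => simp only [F, Finset.mem_singleton] at h; rw [h]
  | succ k ih =>
    simp only [F, Finset.mem_insert, Finset.mem_union] at h
    rcases h with h | h | h
    · rw [h]
    · exact (ih h).trans (Nat.le_succ k)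
    · exact (ih h).trans (Nat.le_succ k)

theorem F_sub {k a : ℕ} {J : ℕ × ℕ} (h : J ∈ F k a) : D J ⊆ D (a, k) := by
  induction k generalizing a with
  | zero => simp only [F, Finset.mem_singleton] at h; rw [h]
  | succ k ih =>
    simp only [F, Finset.mem_insert, Finset.mem_union] at h
    rw [D_succ]
    rcases h with h | h | h
    · rw [h, D_succ]
    · exact (ih h).trans Finset.subset_union_left
    · exact (ih h).trans Finset.subset_union_right

theorem F_disj (k a : ℕ) : Disjoint (F k (2 * a)) (F k (2 * a + 1)) := by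
  rw [Finset.disjoint_left]
  intro J h1 h2
  obtain ⟨x, hx⟩ := D_nonempty J
  exact (Finset.disjoint_left.1 (D_disj a k)) (F_sub h1 hx) (F_sub h2 hx)

theorem F_top (k a b : ℕ) : (a, k + 1) ∉ F k b := by
  intro h
  have := F_le h
  simp at this

/-- Averages over the tree. -/
noncomputable def A : ℕ → ℕ → (ℕ → ℝ) → ℝ
  | 0, a, f => f a
  | (k + 1), a, f => (A k (2 * a) f + A k (2 * a + 1) f) / 2

theorem A_mono {k a : ℕ} {f g : ℕ → ℝ} (h : ∀ x ∈ D (a, k), f x ≤ g x) : A k a f ≤ A k a g := by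
  induction k generalizing a with
  | zero => exact h a (by simp [D])
  | succ k ih =>
    rw [D_succ] at h
    have h1 := ih (a := 2 * a) (fun x hx => h x (Finset.mem_union_left _ hx))
    have h2 := ih (a := 2 * a + 1) (fun x hx => h x (Finset.mem_union_right _ hx))
    simp only [A]
    linarith

theorem A_congr {k a : ℕ} {f g : ℕ → ℝ} (h : ∀ x ∈ D (a, k), f x = g x) : A k a f = A k a g :=
  le_antisymm (A_mono (fun x hx => (h x hx).le)) (A_mono (fun x hx => (h x hx).ge))

theorem A_const (k a : ℕ) (r : ℝ) : A k a (fun _ => r) = r := by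
  induction k generalizing a with
  | zero => rfl
  | succ k ih => simp only [A, ih]; ring

theorem A_mul_left (k a : ℕ) (r : ℝ) (f : ℕ → ℝ) :
    A k a (fun x => r * f x) = r * A k a f := by
  induction k generalizing a with
  | zero => rfl
  | succ k ih => simp only [A, ih]; ring

theorem A_sum {ι : Type*} (k a : ℕ) (s : Finset ι) (f : ι → ℕ → ℝ) :
    A k a (fun x => ∑ i ∈ s, f i x) = ∑ i ∈ s, A k a (f i) := by
  induction k generalizing a with
  | zero => rfl
  | succ k ih =>
    simp only [A, ih]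
    rw [← Finset.sum_add_distrib, Finset.sum_div]

end Pool.Agent.H582R3
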