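import Pool.Agent.H582R3.Step

set_option autoImplicit false

open Finset Classical

namespace Pool.Agent.H582R3

/-- Points of the discrete cube. -/
def Pt : ℕ → Type
  | 0 => Unit
  | (d + 1) => ℕ × Pt d

/-- Labels of dyadic boxes. -/
def Lb : ℕ → Type
  | 0 => Unit
  | (d + 1) => (ℕ × ℕ) × Lb d

noncomputable def fam (n : ℕ) : (d : ℕ) → Finset (Lb d)
  | 0 => ({()} : Finset Unit)
  | (d + 1) => (F n 0 ×ˢ fam n d : Finset ((ℕ × ℕ) × Lb d))

noncomputable def bx : (d : ℕ) → Lb d → Finset (Pt d)
  | 0 => fun _ => ({()} : Finset Unit)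
  | (d + 1) => fun P => (pc (bx d) P : Finset (ℕ × Pt d))

/-- The weights `t_d = 4 ^ (-(2 ^ d - 1))`. -/
noncomputable def tt : ℕ → ℝ
  | 0 => 1
  | (d + 1) => (tt d / 2) ^ 2

theorem tt_pos (d : ℕ) : 0 < tt d := by
  induction d with
  | zero => simp [tt]
  | succ d ih => rw [tt]; positivity

theorem tt_le (d : ℕ) : tt d ≤ 1 := by
  induction d with
  | zero => simp [tt]
  | succ d ih =>
    rw [tt]
    have := tt_pos d
    apply pow_le_one₀ <;> linarith

theorem bx_nonempty (n d : ℕ) : ∀ P ∈ fam n d, (bx d P).Nonempty := by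
  induction d with
  | zero => intro P _; exact Finset.singleton_nonempty _
  | succ d ih => exact pc_nonempty ih n

theorem Good_zero {κ B : Type*} [Subsingleton B] (𝓑 : Finset B) (c : B → Finset κ) (y : κ)
    (hc : ∀ P, y ∈ c P) : Good 𝓑 c 1 := by
  intro X
  have hle : (Til 𝓑 c X).card ≤ 1 := by
    rw [Finset.card_le_one]
    intro σ hσ σ' hσ'
    rw [mem_Til] at hσ hσ'
    have hiff : ∀ ρ : Finset B, ρ.biUnion c = X → ∀ z : B, z ∈ ρ ↔ y ∈ X := by
      intro ρ hρ z
      rw [← hρ]
      constructor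
      · intro h
        exact Finset.mem_biUnion.2 ⟨z, h, hc z⟩
      · intro h
        obtain ⟨P, hP, _⟩ := Finset.mem_biUnion.1 h
        rw [Subsingleton.elim z P]
        exact hP
    ext z
    rw [hiff σ hσ.2.2 z, hiff σ' hσ'.2.2 z]
  simp only [one_pow, Finset.sum_const, nsmul_eq_mul, mul_one]
  exact_mod_cast hle

theorem Good_all (n d : ℕ) : Good (fam n d) (bx d) (tt d) := by
  induction d with
  | zero =>
    have : Subsingleton (Lb 0) := inferInstanceAs (Subsingleton Unit)
    exact Good_zero (fam n 0) (bx 0) () (fun _ => Finset.mem_singleton.2 rfl)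
  | succ d ih =>
    have h1 := tt_pos d
    have h2 := tt_le d
    have h3 : Good (fam n d) (bx d) (2 * (tt d / 2)) := by
      have : 2 * (tt d / 2) = tt d := by ring
      rw [this]; exact ih
    exact Good_prod (bx_nonempty n d) (by linarith) (by linarith) h3 n

/-! ### Points and labels from functions on `Fin d` -/

def ptm : (d : ℕ) → (Fin d → ℕ) → Pt d
  | 0, _ => ()
  | (d + 1), x => (x 0, ptm d (fun i => x i.succ))

def lab : (d : ℕ) → (Fin d → ℕ × ℕ) → Lb d
  | 0, _ => ()
  | (d + 1), J => (J 0, lab d (fun i => J i.succ))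

theorem ptm_surj (d : ℕ) (z : Pt d) : ∃ x, ptm d x = z := by
  induction d with
  | zero => exact ⟨fun i => i.elim0, rfl⟩
  | succ d ih =>
    obtain ⟨a, z'⟩ := z
    obtain ⟨x, hx⟩ := ih z'
    refine ⟨Fin.cons a x, ?_⟩
    simp only [ptm, Fin.cons_zero, Fin.cons_succ]
    rw [hx]

theorem lab_inj (d : ℕ) {J J' : Fin d → ℕ × ℕ} (h : lab d J = lab d J') : J = J' := by
  induction d with
  | zero => funext i; exact i.elim0
  | succ d ih =>
    simp only [lab] at h
    have h0 := Prod.mk.inj h
    have h2 := ih h0.2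
    funext i
    refine Fin.cases h0.1 (fun j => ?_) i
    exact congrFun h2 j

theorem mem_bx (d : ℕ) (x : Fin d → ℕ) (J : Fin d → ℕ × ℕ) :
    ptm d x ∈ bx d (lab d J) ↔ ∀ k, x k ∈ D (J k) := by
  induction d with
  | zero =>
    constructor
    · intro _ k; exact k.elim0
    · intro _; exact Finset.mem_singleton.2 rfl
  | succ d ih =>
    have h1 : ptm (d + 1) x ∈ bx (d + 1) (lab (d + 1) J) ↔
        x 0 ∈ D (J 0) ∧ ptm d (fun i => x i.succ) ∈ bx d (lab d (fun i => J i.succ)) := by
      simp only [ptm, lab, bx, pc]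
      exact Finset.mem_product
    rw [h1, ih, Fin.forall_fin_succ]

theorem lab_mem (n d : ℕ) (J : Fin d → ℕ × ℕ) (h : ∀ k, J k ∈ F n 0) : lab d J ∈ fam n d := by
  induction d with
  | zero => exact Finset.mem_singleton.2 rfl
  | succ d ih =>
    simp only [lab, fam]
    exact Finset.mem_product.2 ⟨h 0, ih _ (fun k => h k.succ)⟩

theorem mem_F {k a j b : ℕ} (hj : j ≤ k) (h1 : a * 2 ^ (k - j) ≤ b)
    (h2 : b < (a + 1) * 2 ^ (k - j)) : (b, j) ∈ F k a := by
  induction k generalizing a with
  | zero =>
    have : j = 0 := by omega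
    subst this
    simp only [Nat.sub_self, pow_zero, mul_one] at h1 h2
    have : b = a := by omega
    subst this
    simp [F]
  | succ k ih =>
    simp only [F, Finset.mem_insert, Finset.mem_union]
    rcases Nat.lt_or_ge k j with h | h
    · have hj' : j = k + 1 := by omega
      subst hj'
      simp only [Nat.sub_self, pow_zero, mul_one] at h1 h2
      have : b = a := by omega
      subst this
      left; rfl
    · right
      have e : k + 1 - j = (k - j) + 1 := by omega
      rw [e, pow_succ] at h1 h2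
      by_cases hb : b < (2 * a + 1) * 2 ^ (k - j)
      · left
        exact ih h (by nlinarith) hb
      · right
        exact ih h (by omega) (by nlinarith)

end Pool.Agent.H582R3
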