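import Pool.Agent.H582R3.Real

set_option autoImplicit false

open Classical

namespace Pool.Agent.H582R3

/-- Slabs tile the cube. -/
theorem exists_tiling (d : ℕ) (hd : 4 ≤ d) (n : ℕ) :
    ∃ S ⊆ ((Finset.univ : Finset ((Fin d → Fin (n + 1)) × (Fin d → Fin (2 ^ n)))).filter
                (fun x => ∑ k, (x.1 k : ℕ) = n ∧ ∀ k, (x.2 k : ℕ) < 2 ^ (x.1 k : ℕ))),
                (⋃ x ∈ S, Set.pi Set.univ (fun k => Set.Icc (((x.2 k : ℕ) : ℝ) / 2 ^ (x.1 k : ℕ))
                    ((((x.2 k : ℕ) : ℝ) + 1) / 2 ^ (x.1 k : ℕ)))) = Set.Icc (0 : Fin d → ℝ) 1 ∧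
                ∀ x ∈ S, ∀ y ∈ S, x ≠ y →
                  Disjoint
                    (interior (Set.pi Set.univ (fun k => Set.Icc (((x.2 k : ℕ) : ℝ) / 2 ^ (x.1 k : ℕ))
                      ((((x.2 k : ℕ) : ℝ) + 1) / 2 ^ (x.1 k : ℕ)))))
                    (interior (Set.pi Set.univ (fun k => Set.Icc (((y.2 k : ℕ) : ℝ) / 2 ^ (y.1 k : ℕ))
                      ((((y.2 k : ℕ) : ℝ) + 1) / 2 ^ (y.1 k : ℕ))))) := by
  let z : Fin d := ⟨0, by omega⟩
  let i0 : Fin d → Fin (n + 1) := fun k => if k = z then ⟨n, Nat.lt_succ_self n⟩ else 0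
  let a0 : Fin (2 ^ n) → Fin d → Fin (2 ^ n) := fun j k =>
    if k = z then j else ⟨0, by positivity⟩
  let S : Finset ((Fin d → Fin (n + 1)) × (Fin d → Fin (2 ^ n))) :=
    Finset.univ.image (fun j : Fin (2 ^ n) => (i0, a0 j))
  have hi : ∀ k, (i0 k : ℕ) = if k = z then n else 0 := by
    intro k
    simp only [i0]
    split_ifs <;> simp
  have ha : ∀ j k, (a0 j k : ℕ) = if k = z then (j : ℕ) else 0 := by
    intro j k
    simp only [a0]
    split_ifs <;> simp
  refine ⟨S, ?_, ?_, ?_⟩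
  · intro x hx
    obtain ⟨j, _, rfl⟩ := Finset.mem_image.1 hx
    rw [Finset.mem_filter]
    refine ⟨Finset.mem_univ _, ?_, ?_⟩
    · simp only [hi]
      simp
    · intro k
      simp only [hi, ha]
      split_ifs
      · exact j.2
      · simp
  · ext y
    simp only [Set.mem_iUnion]
    constructor
    · rintro ⟨x, hx, hy⟩
      obtain ⟨j, _, rfl⟩ := Finset.mem_image.1 hx
      have hy' := (mem_RB d n (i0, a0 j) y).1 hy
      have key : ∀ k, 0 ≤ y k ∧ y k ≤ 1 := by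
        intro k
        have h1 := hy' k
        simp only [hi, ha] at h1
        by_cases hk : k = z
        · simp only [hk, if_true] at h1
          rw [hk]
          have h2 : (0 : ℝ) ≤ ((j : ℕ) : ℝ) / 2 ^ n := by positivity
          have h3 : (((j : ℕ) : ℝ) + 1) / 2 ^ n ≤ 1 := by
            rw [div_le_one (by positivity)]
            have : (j : ℕ) + 1 ≤ 2 ^ n := j.2
            exact_mod_cast this
          exact ⟨h2.trans h1.1, h1.2.trans h3⟩
        · simp only [if_neg hk] at h1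
          norm_num at h1
          exact h1
      rw [Set.mem_Icc]
      exact ⟨fun k => (key k).1, fun k => (key k).2⟩
    · intro hy
      rw [Set.mem_Icc] at hy
      have hy0 : ∀ k, 0 ≤ y k := fun k => hy.1 k
      have hy1 : ∀ k, y k ≤ 1 := fun k => hy.2 k
      have hN : (0 : ℝ) < 2 ^ n := by positivity
      -- choose the slab
      obtain ⟨j, hj1, hj2⟩ : ∃ j : Fin (2 ^ n), ((j : ℕ) : ℝ) / 2 ^ n ≤ y z ∧
          y z ≤ (((j : ℕ) : ℝ) + 1) / 2 ^ n := by
        by_cases h1 : y z < 1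
        · have hfl : ⌊y z * 2 ^ n⌋₊ < 2 ^ n := by
            rw [Nat.floor_lt (mul_nonneg (hy0 z) hN.le)]
            push_cast
            nlinarith
          refine ⟨⟨⌊y z * 2 ^ n⌋₊, hfl⟩, ?_, ?_⟩
          · rw [div_le_iff₀ hN]
            exact Nat.floor_le (mul_nonneg (hy0 z) hN.le)
          · rw [le_div_iff₀ hN]
            exact (Nat.lt_floor_add_one _).le
        · have h2 : y z = 1 := le_antisymm (hy1 z) (not_lt.1 h1)
          have hpos : 0 < 2 ^ n := by positivity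
          refine ⟨⟨2 ^ n - 1, by omega⟩, ?_, ?_⟩
          · rw [h2, div_le_one hN]
            have : 2 ^ n - 1 ≤ 2 ^ n := by omega
            exact_mod_cast this
          · rw [h2, le_div_iff₀ hN]
            have h3 : 2 ^ n - 1 + 1 = 2 ^ n := by omega
            have h4 : (((2 ^ n - 1 : ℕ) : ℝ) + 1) = 2 ^ n := by exact_mod_cast h3
            simp only
            rw [h4, one_mul]
      refine ⟨(i0, a0 j), Finset.mem_image.2 ⟨j, Finset.mem_univ _, rfl⟩, ?_⟩
      refine (mem_RB d n (i0, a0 j) y).2 ?_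
      intro k
      simp only [hi, ha]
      by_cases hk : k = z
      · simp only [hk, if_true]
        exact ⟨hj1, hj2⟩
      · simp only [if_neg hk]
        norm_num
        exact ⟨hy0 k, hy1 k⟩
  · intro x hx x' hx' hne
    obtain ⟨j, _, rfl⟩ := Finset.mem_image.1 hx
    obtain ⟨j', _, rfl⟩ := Finset.mem_image.1 hx'
    have hjj : (j : ℕ) ≠ j' := by
      intro h
      apply hne
      rw [Fin.ext h]
    rw [Set.disjoint_left]
    intro y hy hy'
    have h1 := (mem_interior d n (i0, a0 j) y).1 hy z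
    have h2 := (mem_interior d n (i0, a0 j') y).1 hy' z
    simp only [hi, ha, if_true] at h1 h2
    have hN : (0 : ℝ) < 2 ^ n := by positivity
    have h3 := h1.1.trans h2.2
    have h4 := h2.1.trans h1.2
    rw [div_lt_div_iff_of_pos_right hN] at h3 h4
    have h5 : (j : ℕ) < j' + 1 := by exact_mod_cast h3
    have h6 : (j' : ℕ) < j + 1 := by exact_mod_cast h4
    omega

theorem union_bound' {α : Type*} (Ω : Finset α) (P : Finset α → Prop) {p : ℝ} (hp0 : 0 ≤ p)
    (hp1 : p ≤ 1) (f : Finset α → ℝ)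
    (hf : ∀ A, f A ≤ p ^ A.card * (1 - p) ^ (Ω.card - A.card) ∧ ((¬ ∃ S ⊆ A, P S) → f A ≤ 0)) :
    (∑ A ∈ Ω.powerset, f A) ≤ ∑ S ∈ Ω.powerset.filter P, p ^ S.card := by
  refine le_trans ?_ (union_bound Ω P hp0 hp1)
  apply Finset.sum_le_sum
  intro A _
  split_ifs with h
  · exact (hf A).1
  · exact (hf A).2 h

theorem filt_bound (d n : ℕ) {p : ℝ} (hp0 : 0 ≤ p) (hlt : p < tt d)
    (Ω : Finset ((Fin d → Fin (n + 1)) × (Fin d → Fin (2 ^ n))))
    (hΩ : ∀ x ∈ Ω, Adm d n x) :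
    ∑ S ∈ Ω.powerset.filter (IsT d n), p ^ S.card ≤ p / tt d := by
  have ht0 := tt_pos d
  have h1 := real_sum_le d n (Ω.powerset.filter (IsT d n)) (by
    intro S hS
    rw [Finset.mem_filter, Finset.mem_powerset] at hS
    exact ⟨fun x hx => hΩ x (hS.1 hx), hS.2⟩)
  have h2 : ∀ S ∈ Ω.powerset.filter (IsT d n), p ^ S.card ≤ (p / tt d) * tt d ^ S.card := by
    intro S hS
    rw [Finset.mem_filter] at hS
    have h3 := IsT_nonempty hS.2
    obtain ⟨m, hm⟩ : ∃ m, S.card = m + 1 := ⟨S.card - 1, by omega⟩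
    rw [hm, pow_succ, pow_succ]
    have h4 : p ^ m ≤ tt d ^ m := pow_le_pow_left₀ hp0 hlt.le m
    have h5 : p / tt d * (tt d ^ m * tt d) = tt d ^ m * p := by
      field_simp
    rw [h5]
    exact mul_le_mul_of_nonneg_right h4 hp0
  refine (Finset.sum_le_sum h2).trans ?_
  rw [← Finset.mul_sum]
  calc p / tt d * _ ≤ p / tt d * 1 := mul_le_mul_of_nonneg_left h1 (by positivity)
    _ = p / tt d := mul_one _

theorem prob_le (d n : ℕ) {p : ℝ} (hp0 : 0 ≤ p) (hlt : p < tt d) :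
    (∑ A ∈ ((Finset.univ : Finset ((Fin d → Fin (n + 1)) × (Fin d → Fin (2 ^ n)))).filter
                (fun x => ∑ k, (x.1 k : ℕ) = n ∧ ∀ k, (x.2 k : ℕ) < 2 ^ (x.1 k : ℕ))).powerset,
          if (∃ S ⊆ A,
                (⋃ x ∈ S, Set.pi Set.univ (fun k => Set.Icc (((x.2 k : ℕ) : ℝ) / 2 ^ (x.1 k : ℕ))
                    ((((x.2 k : ℕ) : ℝ) + 1) / 2 ^ (x.1 k : ℕ)))) = Set.Icc (0 : Fin d → ℝ) 1 ∧
                ∀ x ∈ S, ∀ y ∈ S, x ≠ y →
                  Disjoint
                    (interior (Set.pi Set.univ (fun k => Set.Icc (((x.2 k : ℕ) : ℝ) / 2 ^ (x.1 k : ℕ))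
                      ((((x.2 k : ℕ) : ℝ) + 1) / 2 ^ (x.1 k : ℕ)))))
                    (interior (Set.pi Set.univ (fun k => Set.Icc (((y.2 k : ℕ) : ℝ) / 2 ^ (y.1 k : ℕ))
                      ((((y.2 k : ℕ) : ℝ) + 1) / 2 ^ (y.1 k : ℕ))))))
          then p ^ A.card * (1 - p) ^
              (((Finset.univ : Finset ((Fin d → Fin (n + 1)) × (Fin d → Fin (2 ^ n)))).filter
                (fun x => ∑ k, (x.1 k : ℕ) = n ∧ ∀ k, (x.2 k : ℕ) < 2 ^ (x.1 k : ℕ))).card - A.card)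
          else 0) ≤ p / tt d := by
  have hp1 : p ≤ 1 := by
    have := tt_le d
    linarith
  have hq : 0 ≤ 1 - p := by linarith
  have hΩ : ∀ x ∈ ((Finset.univ : Finset ((Fin d → Fin (n + 1)) × (Fin d → Fin (2 ^ n)))).filter
                (fun x => ∑ k, (x.1 k : ℕ) = n ∧ ∀ k, (x.2 k : ℕ) < 2 ^ (x.1 k : ℕ))), Adm d n x := by
    intro x hx k
    exact (Finset.mem_filter.1 hx).2.2 k
  refine le_trans (union_bound' _ (IsT d n) hp0 hp1 _ ?_) (filt_bound d n hp0 hlt _ hΩ)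
  intro A
  refine ⟨?_, fun h => (if_neg h).le⟩
  split_ifs
  · exact le_rfl
  · positivity

/-- Below `t_d` the tiling probability does not tend to one. -/
theorem not_tendsto (d : ℕ) {p : ℝ} (hp0 : 0 ≤ p) (hlt : p < tt d) :
    ¬ Filter.Tendsto (fun n : ℕ =>
        ∑ A ∈ ((Finset.univ : Finset ((Fin d → Fin (n + 1)) × (Fin d → Fin (2 ^ n)))).filter
                (fun x => ∑ k, (x.1 k : ℕ) = n ∧ ∀ k, (x.2 k : ℕ) < 2 ^ (x.1 k : ℕ))).powerset,
          if (∃ S ⊆ A,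
                (⋃ x ∈ S, Set.pi Set.univ (fun k => Set.Icc (((x.2 k : ℕ) : ℝ) / 2 ^ (x.1 k : ℕ))
                    ((((x.2 k : ℕ) : ℝ) + 1) / 2 ^ (x.1 k : ℕ)))) = Set.Icc (0 : Fin d → ℝ) 1 ∧
                ∀ x ∈ S, ∀ y ∈ S, x ≠ y →
                  Disjoint
                    (interior (Set.pi Set.univ (fun k => Set.Icc (((x.2 k : ℕ) : ℝ) / 2 ^ (x.1 k : ℕ))
                      ((((x.2 k : ℕ) : ℝ) + 1) / 2 ^ (x.1 k : ℕ)))))
                    (interior (Set.pi Set.univ (fun k => Set.Icc (((y.2 k : ℕ) : ℝ) / 2 ^ (y.1 k : ℕ))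
                      ((((y.2 k : ℕ) : ℝ) + 1) / 2 ^ (y.1 k : ℕ))))))
          then p ^ A.card * (1 - p) ^
              (((Finset.univ : Finset ((Fin d → Fin (n + 1)) × (Fin d → Fin (2 ^ n)))).filter
                (fun x => ∑ k, (x.1 k : ℕ) = n ∧ ∀ k, (x.2 k : ℕ) < 2 ^ (x.1 k : ℕ))).card - A.card)
          else 0)
        Filter.atTop (nhds 1) := by
  intro hlim
  have hb : p / tt d < 1 := by rw [div_lt_one (tt_pos d)]; exact hlt
  exact absurd (le_of_tendsto' hlim (fun n => prob_le d n hp0 hlt)) (not_le.2 hb)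

end Pool.Agent.H582R3
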