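import Pool.Agent.H582R3.Count

set_option autoImplicit false

open Finset Classical

namespace Pool.Agent.H582R3

variable {κ B : Type*}

/-- number of tiles of `τ` with first interval inside `(a, k)` and containing `x` -/
noncomputable def nx (k a : ℕ) (τ : Finset ((ℕ × ℕ) × B)) (x : ℕ) : ℕ :=
  (τ.filter (fun P => P.1 ∈ F k a ∧ x ∈ D P.1)).card

/-- number of tiles of `τ` with first interval `(a, k)` -/
noncomputable def cnt (k a : ℕ) (τ : Finset ((ℕ × ℕ) × B)) : ℕ :=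
  (τ.filter (fun P => P.1 = (a, k))).card

/-- number of tiles of `τ` with first interval inside `(a, k)` -/
noncomputable def tot (k a : ℕ) (τ : Finset ((ℕ × ℕ) × B)) : ℕ :=
  (τ.filter (fun P => P.1 ∈ F k a)).card

noncomputable def u (s : ℝ) (k a : ℕ) (τ : Finset ((ℕ × ℕ) × B)) : ℝ :=
  A k a (fun x => s ^ nx k a τ x)

noncomputable def w (s : ℝ) : ℕ → ℕ → Finset ((ℕ × ℕ) × B) → ℝ
  | 0, a, τ => u s 0 a τ
  | (k + 1), a, τ => u s (k + 1) a τ * w s k (2 * a) τ * w s k (2 * a + 1) τ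

theorem nx_succ_left (k a : ℕ) (τ : Finset ((ℕ × ℕ) × B)) {x : ℕ} (hx : x ∈ D (2 * a, k)) :
    nx (k + 1) a τ x = cnt (k + 1) a τ + nx k (2 * a) τ x := by
  rw [nx, cnt, nx, ← Finset.card_union_of_disjoint]
  · congr 1
    ext P
    simp only [F, Finset.mem_filter, Finset.mem_insert, Finset.mem_union]
    constructor
    · rintro ⟨hP, (h | h | h), h2⟩
      · exact Or.inl ⟨hP, h⟩
      · exact Or.inr ⟨hP, h, h2⟩
      · exact absurd (F_sub h h2) (fun h3 => Finset.disjoint_left.1 (D_disj a k) hx h3)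
    · rintro (⟨hP, h⟩ | ⟨hP, h, h2⟩)
      · refine ⟨hP, Or.inl h, ?_⟩
        rw [h, D_succ]; exact Finset.mem_union_left _ hx
      · exact ⟨hP, Or.inr (Or.inl h), h2⟩
  · rw [Finset.disjoint_left]
    intro P h1 h2
    rw [Finset.mem_filter] at h1 h2
    rw [h1.2] at h2
    exact F_top k a _ h2.2.1

theorem nx_succ_right (k a : ℕ) (τ : Finset ((ℕ × ℕ) × B)) {x : ℕ} (hx : x ∈ D (2 * a + 1, k)) :
    nx (k + 1) a τ x = cnt (k + 1) a τ + nx k (2 * a + 1) τ x := by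
  rw [nx, cnt, nx, ← Finset.card_union_of_disjoint]
  · congr 1
    ext P
    simp only [F, Finset.mem_filter, Finset.mem_insert, Finset.mem_union]
    constructor
    · rintro ⟨hP, (h | h | h), h2⟩
      · exact Or.inl ⟨hP, h⟩
      · exact absurd (F_sub h h2) (fun h3 => Finset.disjoint_left.1 (D_disj a k) h3 hx)
      · exact Or.inr ⟨hP, h, h2⟩
    · rintro (⟨hP, h⟩ | ⟨hP, h, h2⟩)
      · refine ⟨hP, Or.inl h, ?_⟩
        rw [h, D_succ]; exact Finset.mem_union_right _ hx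
      · exact ⟨hP, Or.inr (Or.inr h), h2⟩
  · rw [Finset.disjoint_left]
    intro P h1 h2
    rw [Finset.mem_filter] at h1 h2
    rw [h1.2] at h2
    exact F_top k a _ h2.2.1

theorem u_succ (s : ℝ) (k a : ℕ) (τ : Finset ((ℕ × ℕ) × B)) :
    u s (k + 1) a τ = s ^ cnt (k + 1) a τ * ((u s k (2 * a) τ + u s k (2 * a + 1) τ) / 2) := by
  have h1 : A k (2 * a) (fun x => s ^ nx (k + 1) a τ x) =
      s ^ cnt (k + 1) a τ * u s k (2 * a) τ := by
    rw [u, ← A_mul_left]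
    apply A_congr
    intro x hx
    rw [nx_succ_left k a τ hx, pow_add]
  have h2 : A k (2 * a + 1) (fun x => s ^ nx (k + 1) a τ x) =
      s ^ cnt (k + 1) a τ * u s k (2 * a + 1) τ := by
    rw [u, ← A_mul_left]
    apply A_congr
    intro x hx
    rw [nx_succ_right k a τ hx, pow_add]
  rw [u, A, h1, h2]
  ring

theorem tot_succ (k a : ℕ) (τ : Finset ((ℕ × ℕ) × B)) :
    tot (k + 1) a τ = cnt (k + 1) a τ + (tot k (2 * a) τ + tot k (2 * a + 1) τ) := by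
  rw [tot, cnt, tot, tot, ← Finset.card_union_of_disjoint, ← Finset.card_union_of_disjoint]
  · congr 1
    ext P
    simp only [F, Finset.mem_filter, Finset.mem_insert, Finset.mem_union]
    tauto
  · rw [Finset.disjoint_left]
    intro P h1 h2
    simp only [Finset.mem_filter, Finset.mem_union] at h1 h2
    rw [h1.2] at h2
    rcases h2 with h2 | h2
    · exact F_top k a _ h2.2
    · exact F_top k a _ h2.2
  · rw [Finset.disjoint_left]
    intro P h1 h2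
    simp only [Finset.mem_filter] at h1 h2
    exact Finset.disjoint_left.1 (F_disj k a) h1.2 h2.2

theorem u_nonneg {s : ℝ} (hs : 0 ≤ s) (k a : ℕ) (τ : Finset ((ℕ × ℕ) × B)) : 0 ≤ u s k a τ := by
  rw [u, ← A_const k a 0]
  exact A_mono (fun x _ => by positivity)

theorem u_le_one {s : ℝ} (hs : 0 ≤ s) (hs1 : s ≤ 1) (k a : ℕ) (τ : Finset ((ℕ × ℕ) × B)) :
    u s k a τ ≤ 1 := by
  rw [u, ← A_const k a 1]
  exact A_mono (fun x _ => pow_le_one₀ hs hs1)

theorem w_nonneg {s : ℝ} (hs : 0 ≤ s) (k a : ℕ) (τ : Finset ((ℕ × ℕ) × B)) : 0 ≤ w s k a τ := by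
  induction k generalizing a with
  | zero => exact u_nonneg hs 0 a τ
  | succ k ih =>
    rw [w]
    exact mul_nonneg (mul_nonneg (u_nonneg hs _ _ _) (ih _)) (ih _)

/-- The AM-GM step. -/
theorem wu_ge {s : ℝ} (hs : 0 ≤ s) (k a : ℕ) (τ : Finset ((ℕ × ℕ) × B)) :
    s ^ (2 * tot k a τ) ≤ w s k a τ * u s k a τ := by
  induction k generalizing a with
  | zero =>
    have h1 : u s 0 a τ = s ^ tot 0 a τ := by
      rw [u, A, nx, tot]
      congr 2
      ext P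
      simp only [F, Finset.mem_filter, Finset.mem_singleton]
      constructor
      · rintro ⟨h1, h2, _⟩; exact ⟨h1, h2⟩
      · rintro ⟨h1, h2⟩
        refine ⟨h1, h2, ?_⟩
        rw [h2]; simp [D]
    rw [w, h1, ← pow_add, two_mul]
  | succ k ih =>
    have hL := ih (2 * a)
    have hR := ih (2 * a + 1)
    set uL := u s k (2 * a) τ
    set uR := u s k (2 * a + 1) τ
    set wL := w s k (2 * a) τ
    set wR := w s k (2 * a + 1) τ
    have hwL : 0 ≤ wL := w_nonneg hs _ _ _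
    have hwR : 0 ≤ wR := w_nonneg hs _ _ _
    rw [w, u_succ, tot_succ]
    have e1 : s ^ (2 * (cnt (k + 1) a τ + (tot k (2 * a) τ + tot k (2 * a + 1) τ))) =
        (s ^ cnt (k + 1) a τ) ^ 2 * (s ^ (2 * tot k (2 * a) τ) * s ^ (2 * tot k (2 * a + 1) τ)) := by
      rw [← pow_mul, ← pow_add, ← pow_add]
      congr 1
      ring
    rw [e1]
    have e2 : s ^ (2 * tot k (2 * a) τ) * s ^ (2 * tot k (2 * a + 1) τ) ≤ (wL * uL) * (wR * uR) :=
      mul_le_mul hL hR (by positivity) (le_trans (by positivity) hL)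
    have e3 : (wL * uL) * (wR * uR) ≤ ((uL + uR) / 2) ^ 2 * (wL * wR) := by
      have : uL * uR ≤ ((uL + uR) / 2) ^ 2 := by nlinarith [sq_nonneg (uL - uR)]
      nlinarith [mul_le_mul_of_nonneg_right this (mul_nonneg hwL hwR)]
    calc (s ^ cnt (k + 1) a τ) ^ 2 * (s ^ (2 * tot k (2 * a) τ) * s ^ (2 * tot k (2 * a + 1) τ))
        ≤ (s ^ cnt (k + 1) a τ) ^ 2 * (((uL + uR) / 2) ^ 2 * (wL * wR)) :=
          mul_le_mul_of_nonneg_left (e2.trans e3) (by positivity)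
      _ = _ := by ring

/-- The tilings of the region with slices `X x`, `x` in the dyadic interval `(a, k)`. -/
noncomputable def PT (𝓑 : Finset B) (c : B → Finset κ) (k a : ℕ) (X : ℕ → Finset κ) :
    Finset (Finset ((ℕ × ℕ) × B)) :=
  (F k a ×ˢ 𝓑).powerset.filter (fun τ =>
    (∀ P ∈ τ, ∀ P' ∈ τ, P ≠ P' → ∀ x, x ∈ D P.1 → x ∈ D P'.1 → Disjoint (c P.2) (c P'.2)) ∧
    ∀ x ∈ D (a, k), (τ.filter (fun P => x ∈ D P.1)).biUnion (fun P => c P.2) = X x)

theorem mem_PT {𝓑 : Finset B} {c : B → Finset κ} {k a : ℕ} {X : ℕ → Finset κ}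
    {τ : Finset ((ℕ × ℕ) × B)} : τ ∈ PT 𝓑 c k a X ↔
    (∀ P ∈ τ, P.1 ∈ F k a ∧ P.2 ∈ 𝓑) ∧
    (∀ P ∈ τ, ∀ P' ∈ τ, P ≠ P' → ∀ x, x ∈ D P.1 → x ∈ D P'.1 → Disjoint (c P.2) (c P'.2)) ∧
    ∀ x ∈ D (a, k), (τ.filter (fun P => x ∈ D P.1)).biUnion (fun P => c P.2) = X x := by
  rw [PT, Finset.mem_filter, Finset.mem_powerset]
  constructor
  · rintro ⟨h1, h2, h3⟩
    exact ⟨fun P hP => Finset.mem_product.1 (h1 hP), h2, h3⟩
  · rintro ⟨h1, h2, h3⟩
    exact ⟨fun P hP => Finset.mem_product.2 (h1 P hP), h2, h3⟩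

/-- The slice at `x`. -/
noncomputable def slice (τ : Finset ((ℕ × ℕ) × B)) (x : ℕ) : Finset B :=
  (τ.filter (fun P => x ∈ D P.1)).image Prod.snd

theorem slice_inj {𝓑 : Finset B} {c : B → Finset κ} (hne : ∀ P ∈ 𝓑, (c P).Nonempty)
    {k a : ℕ} {X : ℕ → Finset κ} {τ : Finset ((ℕ × ℕ) × B)} (hτ : τ ∈ PT 𝓑 c k a X) (x : ℕ) :
    Set.InjOn Prod.snd ((τ.filter (fun P => x ∈ D P.1) : Finset ((ℕ × ℕ) × B)) :
      Set ((ℕ × ℕ) × B)) := by
  rw [mem_PT] at hτ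
  intro P hP P' hP' h
  rw [Finset.mem_coe, Finset.mem_filter] at hP hP'
  by_contra hne'
  have h1 := hτ.2.1 P hP.1 P' hP'.1 hne' x hP.2 hP'.2
  rw [h, disjoint_self, Finset.bot_eq_empty] at h1
  have h2 := hne P'.2 (hτ.1 P' hP'.1).2
  rw [h1] at h2
  exact Finset.not_nonempty_empty h2

theorem slice_mem {𝓑 : Finset B} {c : B → Finset κ} {k a : ℕ} {X : ℕ → Finset κ}
    {τ : Finset ((ℕ × ℕ) × B)} (hτ : τ ∈ PT 𝓑 c k a X) {x : ℕ} (hx : x ∈ D (a, k)) :
    slice τ x ∈ Til 𝓑 c (X x) := by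
  rw [mem_PT] at hτ
  rw [mem_Til]
  refine ⟨?_, ?_, ?_⟩
  · intro Q hQ
    obtain ⟨P, hP, rfl⟩ := Finset.mem_image.1 hQ
    exact (hτ.1 P (Finset.mem_filter.1 hP).1).2
  · intro Q hQ Q' hQ' hne
    obtain ⟨P, hP, rfl⟩ := Finset.mem_image.1 hQ
    obtain ⟨P', hP', rfl⟩ := Finset.mem_image.1 hQ'
    rw [Finset.mem_filter] at hP hP'
    exact hτ.2.1 P hP.1 P' hP'.1 (fun h => hne (by rw [h])) x hP.2 hP'.2
  · rw [slice, ← hτ.2.2 x hx, Finset.image_biUnion]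

theorem nx_eq {𝓑 : Finset B} {c : B → Finset κ} (hne : ∀ P ∈ 𝓑, (c P).Nonempty)
    {k a : ℕ} {X : ℕ → Finset κ} {τ : Finset ((ℕ × ℕ) × B)} (hτ : τ ∈ PT 𝓑 c k a X) (x : ℕ) :
    nx k a τ x = (slice τ x).card := by
  rw [slice, Finset.card_image_of_injOn (slice_inj hne hτ x), nx]
  congr 1
  ext P
  simp only [Finset.mem_filter]
  constructor
  · rintro ⟨h1, _, h2⟩; exact ⟨h1, h2⟩
  · rintro ⟨h1, h2⟩; exact ⟨h1, ((mem_PT.1 hτ).1 P h1).1, h2⟩

/-- Conditioning on a slice. -/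
theorem U_bound {𝓑 : Finset B} {c : B → Finset κ} (hne : ∀ P ∈ 𝓑, (c P).Nonempty) {s : ℝ}
    (hs : 0 ≤ s) {k a : ℕ} {X : ℕ → Finset κ} (hW : ∑ τ ∈ PT 𝓑 c k a X, w s k a τ ≤ 1) :
    ∑ τ ∈ PT 𝓑 c k a X, u s k a τ * w s k a τ ≤
      A k a (fun x => ∑ σ ∈ Til 𝓑 c (X x), s ^ σ.card) := by
  have h1 : ∑ τ ∈ PT 𝓑 c k a X, u s k a τ * w s k a τ =
      A k a (fun x => ∑ τ ∈ PT 𝓑 c k a X, w s k a τ * s ^ nx k a τ x) := by
    rw [A_sum]
    apply Finset.sum_congr rfl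
    intro τ _
    rw [A_mul_left, u, mul_comm]
  rw [h1]
  apply A_mono
  intro x hx
  rw [← Finset.sum_fiberwise_of_maps_to (g := fun τ => slice τ x)
    (fun τ hτ => slice_mem hτ hx)]
  apply Finset.sum_le_sum
  intro σ _
  calc ∑ τ ∈ (PT 𝓑 c k a X).filter (fun τ => slice τ x = σ), w s k a τ * s ^ nx k a τ x
      = ∑ τ ∈ (PT 𝓑 c k a X).filter (fun τ => slice τ x = σ), w s k a τ * s ^ σ.card := by
        apply Finset.sum_congr rfl
        intro τ hτ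
        rw [Finset.mem_filter] at hτ
        rw [nx_eq hne hτ.1, hτ.2]
    _ = (∑ τ ∈ (PT 𝓑 c k a X).filter (fun τ => slice τ x = σ), w s k a τ) * s ^ σ.card := by
        rw [Finset.sum_mul]
    _ ≤ 1 * s ^ σ.card := by
        apply mul_le_mul_of_nonneg_right _ (by positivity)
        refine le_trans ?_ hW
        exact Finset.sum_le_sum_of_subset_of_nonneg (Finset.filter_subset _ _)
          (fun τ _ _ => w_nonneg hs _ _ _)
    _ = s ^ σ.card := one_mul _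

theorem nx_congr {k a : ℕ} {τ τ' : Finset ((ℕ × ℕ) × B)}
    (h : τ.filter (fun P => P.1 ∈ F k a) = τ'.filter (fun P => P.1 ∈ F k a)) (x : ℕ) :
    nx k a τ x = nx k a τ' x := by
  have h1 : ∀ ρ : Finset ((ℕ × ℕ) × B), ρ.filter (fun P => P.1 ∈ F k a ∧ x ∈ D P.1) =
      (ρ.filter (fun P => P.1 ∈ F k a)).filter (fun P => x ∈ D P.1) := by
    intro ρ; rw [Finset.filter_filter]
  rw [nx, nx, h1, h1, h]

theorem filter_mono {k a : ℕ} {G : Finset (ℕ × ℕ)} (hG : G ⊆ F k a)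
    {τ τ' : Finset ((ℕ × ℕ) × B)}
    (h : τ.filter (fun P => P.1 ∈ F k a) = τ'.filter (fun P => P.1 ∈ F k a)) :
    τ.filter (fun P => P.1 ∈ G) = τ'.filter (fun P => P.1 ∈ G) := by
  have h1 : ∀ ρ : Finset ((ℕ × ℕ) × B), ρ.filter (fun P => P.1 ∈ G) =
      (ρ.filter (fun P => P.1 ∈ F k a)).filter (fun P => P.1 ∈ G) := by
    intro ρ
    rw [Finset.filter_filter]
    apply Finset.filter_congr
    intro P _
    constructor
    · intro h; exact ⟨hG h, h⟩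
    · rintro ⟨_, h⟩; exact h
  rw [h1, h1 τ', h]

theorem u_congr (s : ℝ) {k a : ℕ} {τ τ' : Finset ((ℕ × ℕ) × B)}
    (h : τ.filter (fun P => P.1 ∈ F k a) = τ'.filter (fun P => P.1 ∈ F k a)) :
    u s k a τ = u s k a τ' := by
  rw [u, u]
  apply A_congr
  intro x _
  rw [nx_congr h]

theorem w_congr (s : ℝ) {k a : ℕ} {τ τ' : Finset ((ℕ × ℕ) × B)}
    (h : τ.filter (fun P => P.1 ∈ F k a) = τ'.filter (fun P => P.1 ∈ F k a)) :
    w s k a τ = w s k a τ' := by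
  induction k generalizing a with
  | zero => exact u_congr s h
  | succ k ih =>
    rw [w, w, u_congr s h, ih (filter_mono _ h), ih (filter_mono _ h)]
    · intro J hJ; simp [F, hJ]
    · intro J hJ; simp [F, hJ]

end Pool.Agent.H582R3
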