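import Pool.Agent.H582R3.Dim

set_option autoImplicit false

open Finset Classical

namespace Pool.Agent.H582R3

/-- The real dyadic box of a tile. -/
def RB (d n : ℕ) (x : (Fin d → Fin (n + 1)) × (Fin d → Fin (2 ^ n))) : Set (Fin d → ℝ) :=
  Set.pi Set.univ (fun k => Set.Icc (((x.2 k : ℕ) : ℝ) / 2 ^ (x.1 k : ℕ))
    ((((x.2 k : ℕ) : ℝ) + 1) / 2 ^ (x.1 k : ℕ)))

/-- Real tilings. -/
def IsT (d n : ℕ) (S : Finset ((Fin d → Fin (n + 1)) × (Fin d → Fin (2 ^ n)))) : Prop :=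
  (⋃ x ∈ S, RB d n x) = Set.Icc (0 : Fin d → ℝ) 1 ∧
    ∀ x ∈ S, ∀ y ∈ S, x ≠ y → Disjoint (interior (RB d n x)) (interior (RB d n y))

theorem mem_interior (d n : ℕ) (x : (Fin d → Fin (n + 1)) × (Fin d → Fin (2 ^ n)))
    (c : Fin d → ℝ) : c ∈ interior (RB d n x) ↔
      ∀ k, ((x.2 k : ℕ) : ℝ) / 2 ^ (x.1 k : ℕ) < c k ∧
        c k < (((x.2 k : ℕ) : ℝ) + 1) / 2 ^ (x.1 k : ℕ) := by
  rw [RB, interior_pi_set Set.finite_univ]
  simp [Set.mem_pi, interior_Icc]

theorem mem_RB (d n : ℕ) (x : (Fin d → Fin (n + 1)) × (Fin d → Fin (2 ^ n)))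
    (c : Fin d → ℝ) : c ∈ RB d n x ↔
      ∀ k, ((x.2 k : ℕ) : ℝ) / 2 ^ (x.1 k : ℕ) ≤ c k ∧
        c k ≤ (((x.2 k : ℕ) : ℝ) + 1) / 2 ^ (x.1 k : ℕ) := by
  rw [RB, Set.mem_univ_pi]
  simp only [Set.mem_Icc]

/-- the discrete intervals of a tile -/
def JJ (d n : ℕ) (x : (Fin d → Fin (n + 1)) × (Fin d → Fin (2 ^ n))) (k : Fin d) : ℕ × ℕ :=
  ((x.2 k : ℕ), n - (x.1 k : ℕ))

theorem JJ_inj (d n : ℕ) {x y : (Fin d → Fin (n + 1)) × (Fin d → Fin (2 ^ n))}
    (h : JJ d n x = JJ d n y) : x = y := by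
  have h1 : ∀ k, (x.2 k : ℕ) = y.2 k ∧ n - (x.1 k : ℕ) = n - (y.1 k : ℕ) := by
    intro k
    have := congrFun h k
    simp only [JJ, Prod.mk.injEq] at this
    exact this
  refine Prod.ext ?_ ?_
  · funext k
    apply Fin.ext
    have h2 := (h1 k).2
    have h3 : (x.1 k : ℕ) ≤ n := Nat.lt_succ_iff.1 (x.1 k).2
    have h4 : (y.1 k : ℕ) ≤ n := Nat.lt_succ_iff.1 (y.1 k).2
    omega
  · funext k
    exact Fin.ext (h1 k).1

/-- the centre of a cell -/
noncomputable def ctr (d n : ℕ) (m : Fin d → ℕ) (k : Fin d) : ℝ := ((m k : ℝ) + 1 / 2) / 2 ^ n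

theorem center_mem {d n : ℕ} {x : (Fin d → Fin (n + 1)) × (Fin d → Fin (2 ^ n))}
    {m : Fin d → ℕ} (h : ∀ k, m k ∈ D (JJ d n x k)) : ctr d n m ∈ interior (RB d n x) := by
  rw [mem_interior]
  intro k
  have h1 := h k
  simp only [D, JJ, Finset.mem_Ico] at h1
  have hi : (x.1 k : ℕ) ≤ n := Nat.lt_succ_iff.1 (x.1 k).2
  have e : (2 : ℝ) ^ n = 2 ^ (x.1 k : ℕ) * 2 ^ (n - (x.1 k : ℕ)) := by
    rw [← pow_add]; congr 1; omega
  have h2 : (((x.2 k : ℕ) : ℝ)) * 2 ^ (n - (x.1 k : ℕ)) ≤ m k := by exact_mod_cast h1.1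
  have h3 : (m k : ℝ) + 1 ≤ (((x.2 k : ℕ) : ℝ) + 1) * 2 ^ (n - (x.1 k : ℕ)) := by
    exact_mod_cast h1.2
  have p1 : (0 : ℝ) < 2 ^ (x.1 k : ℕ) := by positivity
  have p2 : (0 : ℝ) < 2 ^ (n - (x.1 k : ℕ)) := by positivity
  rw [ctr, e]
  constructor
  · rw [div_lt_div_iff₀ p1 (by positivity)]
    have : ((x.2 k : ℕ) : ℝ) * 2 ^ (n - (x.1 k : ℕ)) < (m k : ℝ) + 1 / 2 := by linarith
    nlinarith
  · rw [div_lt_div_iff₀ (by positivity) p1]
    have : (m k : ℝ) + 1 / 2 < (((x.2 k : ℕ) : ℝ) + 1) * 2 ^ (n - (x.1 k : ℕ)) := by linarith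
    nlinarith

theorem mem_of_center {d n : ℕ} {x : (Fin d → Fin (n + 1)) × (Fin d → Fin (2 ^ n))}
    {m : Fin d → ℕ} (h : ctr d n m ∈ RB d n x) : ∀ k, m k ∈ D (JJ d n x k) := by
  rw [mem_RB] at h
  intro k
  have h1 := h k
  simp only [D, JJ, Finset.mem_Ico]
  have hi : (x.1 k : ℕ) ≤ n := Nat.lt_succ_iff.1 (x.1 k).2
  have e : (2 : ℝ) ^ n = 2 ^ (x.1 k : ℕ) * 2 ^ (n - (x.1 k : ℕ)) := by
    rw [← pow_add]; congr 1; omega
  have p1 : (0 : ℝ) < 2 ^ (x.1 k : ℕ) := by positivity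
  have p2 : (0 : ℝ) < 2 ^ (n - (x.1 k : ℕ)) := by positivity
  rw [ctr, e] at h1
  obtain ⟨h2, h3⟩ := h1
  rw [div_le_div_iff₀ p1 (by positivity)] at h2
  rw [div_le_div_iff₀ (by positivity) p1] at h3
  have h4 : ((x.2 k : ℕ) : ℝ) * 2 ^ (n - (x.1 k : ℕ)) ≤ (m k : ℝ) + 1 / 2 := by
    by_contra hc
    push Not at hc
    nlinarith
  have h5 : (m k : ℝ) + 1 / 2 ≤ (((x.2 k : ℕ) : ℝ) + 1) * 2 ^ (n - (x.1 k : ℕ)) := by
    by_contra hc
    push Not at hc
    nlinarith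
  constructor
  · by_contra hc
    push Not at hc
    have : (m k : ℝ) + 1 ≤ ((x.2 k : ℕ) : ℝ) * 2 ^ (n - (x.1 k : ℕ)) := by exact_mod_cast hc
    linarith
  · by_contra hc
    push Not at hc
    have : (((x.2 k : ℕ) : ℝ) + 1) * 2 ^ (n - (x.1 k : ℕ)) ≤ (m k : ℝ) := by exact_mod_cast hc
    linarith

/-- admissible tiles -/
def Adm (d n : ℕ) (x : (Fin d → Fin (n + 1)) × (Fin d → Fin (2 ^ n))) : Prop :=
  ∀ k, (x.2 k : ℕ) < 2 ^ (x.1 k : ℕ)

theorem JJ_mem {d n : ℕ} {x : (Fin d → Fin (n + 1)) × (Fin d → Fin (2 ^ n))} (hx : Adm d n x)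
    (k : Fin d) : JJ d n x k ∈ F n 0 := by
  apply mem_F (Nat.sub_le _ _)
  · simp
  · have hi : (x.1 k : ℕ) ≤ n := Nat.lt_succ_iff.1 (x.1 k).2
    have e : n - (n - (x.1 k : ℕ)) = x.1 k := by omega
    rw [e, zero_add, one_mul]
    exact hx k

noncomputable def enc (d n : ℕ) (S : Finset ((Fin d → Fin (n + 1)) × (Fin d → Fin (2 ^ n)))) :
    Finset (Lb d) := S.image (fun x => lab d (JJ d n x))

theorem enc_f_inj (d n : ℕ) : Function.Injective
    (fun x : (Fin d → Fin (n + 1)) × (Fin d → Fin (2 ^ n)) => lab d (JJ d n x)) :=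
  fun _ _ h => JJ_inj d n (lab_inj d h)

theorem enc_card (d n : ℕ) (S : Finset ((Fin d → Fin (n + 1)) × (Fin d → Fin (2 ^ n)))) :
    (enc d n S).card = S.card := Finset.card_image_of_injective _ (enc_f_inj d n)

theorem enc_inj (d n : ℕ) : Function.Injective (enc d n) :=
  Finset.image_injective (enc_f_inj d n)

theorem enc_mem {d n : ℕ} {S : Finset ((Fin d → Fin (n + 1)) × (Fin d → Fin (2 ^ n)))}
    (hS : ∀ x ∈ S, Adm d n x) (hT : IsT d n S) :
    enc d n S ∈ Til (fam n d) (bx d) (bx d (lab d (fun _ => (0, n)))) := by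
  rw [mem_Til]
  refine ⟨?_, ?_, ?_⟩
  · intro P hP
    obtain ⟨x, hx, rfl⟩ := Finset.mem_image.1 hP
    exact lab_mem n d _ (fun k => JJ_mem (hS x hx) k)
  · intro P hP Q hQ hne
    obtain ⟨x, hx, rfl⟩ := Finset.mem_image.1 hP
    obtain ⟨y, hy, rfl⟩ := Finset.mem_image.1 hQ
    have hxy : x ≠ y := fun h => hne (by rw [h])
    rw [Finset.disjoint_left]
    intro z hz1 hz2
    obtain ⟨m, rfl⟩ := ptm_surj d z
    rw [mem_bx] at hz1 hz2
    exact (Set.disjoint_left.1 (hT.2 x hx y hy hxy)) (center_mem hz1) (center_mem hz2)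
  · ext z
    obtain ⟨m, rfl⟩ := ptm_surj d z
    rw [mem_bx, Finset.mem_biUnion]
    constructor
    · rintro ⟨P, hP, hz⟩
      obtain ⟨x, hx, rfl⟩ := Finset.mem_image.1 hP
      rw [mem_bx] at hz
      intro k
      exact F_sub (JJ_mem (hS x hx) k) (hz k)
    · intro h
      have hc : ctr d n m ∈ Set.Icc (0 : Fin d → ℝ) 1 := by
        rw [Set.mem_Icc]
        constructor
        · intro k
          simp only [Pi.zero_apply, ctr]
          positivity
        · intro k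
          simp only [Pi.one_apply, ctr]
          have h1 := h k
          simp only [D, Finset.mem_Ico] at h1
          have h2 : (m k : ℝ) + 1 ≤ 2 ^ n := by
            have : m k + 1 ≤ 2 ^ n := by omega
            exact_mod_cast this
          rw [div_le_one (by positivity)]
          linarith
      rw [← hT.1] at hc
      simp only [Set.mem_iUnion] at hc
      obtain ⟨x, hx, hcx⟩ := hc
      refine ⟨lab d (JJ d n x), Finset.mem_image.2 ⟨x, hx, rfl⟩, ?_⟩
      rw [mem_bx]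
      exact mem_of_center hcx

/-- The generating function of real tilings. -/
theorem real_sum_le (d n : ℕ) (𝒯 : Finset (Finset ((Fin d → Fin (n + 1)) × (Fin d → Fin (2 ^ n)))))
    (h : ∀ S ∈ 𝒯, (∀ x ∈ S, Adm d n x) ∧ IsT d n S) :
    ∑ S ∈ 𝒯, tt d ^ S.card ≤ 1 := by
  refine le_trans ?_ (Good_all n d (bx d (lab d (fun _ => (0, n)))))
  calc ∑ S ∈ 𝒯, tt d ^ S.card = ∑ S ∈ 𝒯, (fun σ : Finset (Lb d) => tt d ^ σ.card) (enc d n S) := by
        apply Finset.sum_congr rfl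
        intro S _
        simp only [enc_card]
    _ = ∑ σ ∈ 𝒯.image (enc d n), tt d ^ σ.card := by
        rw [Finset.sum_image (fun S _ S' _ h => enc_inj d n h)]
    _ ≤ _ := by
        apply Finset.sum_le_sum_of_subset_of_nonneg
        · intro σ hσ
          obtain ⟨S, hS, rfl⟩ := Finset.mem_image.1 hσ
          exact enc_mem (h S hS).1 (h S hS).2
        · intro σ _ _
          have := tt_pos d
          positivity

theorem IsT_nonempty {d n : ℕ} {S : Finset ((Fin d → Fin (n + 1)) × (Fin d → Fin (2 ^ n)))}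
    (h : IsT d n S) : 1 ≤ S.card := by
  rw [Nat.one_le_iff_ne_zero, Ne, Finset.card_eq_zero]
  intro h0
  have h1 := h.1
  rw [h0] at h1
  have h2 : (0 : Fin d → ℝ) ∈ Set.Icc (0 : Fin d → ℝ) 1 := by
    rw [Set.mem_Icc]
    exact ⟨le_rfl, fun k => by simp⟩
  rw [← h1] at h2
  simp at h2

theorem union_bound {α : Type*} (Ω : Finset α) (P : Finset α → Prop) {p : ℝ} (hp0 : 0 ≤ p)
    (hp1 : p ≤ 1) :
    (∑ A ∈ Ω.powerset, if (∃ S ⊆ A, P S) then p ^ A.card * (1 - p) ^ (Ω.card - A.card) else 0) ≤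
      ∑ S ∈ Ω.powerset.filter P, p ^ S.card := by
  have hq : 0 ≤ 1 - p := by linarith
  have h1 : ∀ A ∈ Ω.powerset,
      (if (∃ S ⊆ A, P S) then p ^ A.card * (1 - p) ^ (Ω.card - A.card) else 0) ≤
      ∑ S ∈ (Ω.powerset.filter P).filter (fun S => S ⊆ A),
        p ^ A.card * (1 - p) ^ (Ω.card - A.card) := by
    intro A hA
    rw [Finset.mem_powerset] at hA
    split_ifs with h
    · obtain ⟨S, hSA, hS⟩ := h
      have hmem : S ∈ (Ω.powerset.filter P).filter (fun S => S ⊆ A) := by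
        simp only [Finset.mem_filter, Finset.mem_powerset]
        exact ⟨⟨hSA.trans hA, hS⟩, hSA⟩
      exact Finset.single_le_sum (f := fun _ => p ^ A.card * (1 - p) ^ (Ω.card - A.card))
        (fun _ _ => by positivity) hmem
    · exact Finset.sum_nonneg (fun _ _ => by positivity)
  refine (Finset.sum_le_sum h1).trans ?_
  have h2 : ∑ A ∈ Ω.powerset, ∑ S ∈ (Ω.powerset.filter P).filter (fun S => S ⊆ A),
        p ^ A.card * (1 - p) ^ (Ω.card - A.card) =
      ∑ S ∈ Ω.powerset.filter P, ∑ A ∈ Ω.powerset.filter (fun A => S ⊆ A),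
        p ^ A.card * (1 - p) ^ (Ω.card - A.card) := by
    simp_rw [Finset.sum_filter]
    rw [Finset.sum_comm]
    apply Finset.sum_congr rfl
    intro S _
    by_cases hP : P S
    · simp [hP]
    · simp [hP]
  rw [h2]
  apply Finset.sum_le_sum
  intro S hS
  simp only [Finset.mem_filter, Finset.mem_powerset] at hS
  have h3 : ∑ A ∈ Ω.powerset.filter (fun A => S ⊆ A), p ^ A.card * (1 - p) ^ (Ω.card - A.card) =
      ∑ A' ∈ (Ω \ S).powerset, p ^ S.card * (p ^ A'.card * (1 - p) ^ ((Ω \ S).card - A'.card)) := by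
    symm
    apply Finset.sum_bij' (fun A' _ => S ∪ A') (fun A _ => A \ S)
    · intro A' hA'
      rw [Finset.mem_powerset] at hA'
      simp only [Finset.mem_filter, Finset.mem_powerset]
      exact ⟨Finset.union_subset hS.1 (hA'.trans Finset.sdiff_subset), Finset.subset_union_left⟩
    · intro A hA
      simp only [Finset.mem_filter, Finset.mem_powerset] at hA
      rw [Finset.mem_powerset]
      exact Finset.sdiff_subset_sdiff hA.1 (Finset.Subset.refl _)
    · intro A' hA'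
      rw [Finset.mem_powerset] at hA'
      rw [Finset.union_sdiff_left]
      apply Finset.sdiff_eq_self_of_disjoint
      rw [Finset.disjoint_left]
      intro z hz1 hz2
      exact (Finset.mem_sdiff.1 (hA' hz1)).2 hz2
    · intro A hA
      simp only [Finset.mem_filter, Finset.mem_powerset] at hA
      exact Finset.union_sdiff_of_subset hA.2
    · intro A' hA'
      rw [Finset.mem_powerset] at hA'
      have hd : Disjoint S A' := by
        rw [Finset.disjoint_left]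
        intro z hz1 hz2
        exact (Finset.mem_sdiff.1 (hA' hz2)).2 hz1
      have hle : A'.card ≤ (Ω \ S).card := Finset.card_le_card hA'
      rw [Finset.card_union_of_disjoint hd, pow_add, mul_assoc]
      have h5 := Finset.card_sdiff_of_subset hS.1
      have h6 : (Ω \ S).card - A'.card = Ω.card - (S.card + A'.card) := by omega
      rw [h6]
  rw [h3, ← Finset.mul_sum, Finset.sum_pow_mul_eq_add_pow]
  simp

end Pool.Agent.H582R3
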