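import Pool.Agent.H582R3.Prod

set_option autoImplicit false

open Finset Classical

namespace Pool.Agent.H582R3

variable {κ B : Type*}

noncomputable def top (k a : ℕ) (τ : Finset ((ℕ × ℕ) × B)) : Finset B :=
  (τ.filter (fun P => P.1 = (a, k + 1))).image Prod.snd

noncomputable def lt (k b : ℕ) (τ : Finset ((ℕ × ℕ) × B)) : Finset ((ℕ × ℕ) × B) :=
  τ.filter (fun P => P.1 ∈ F k b)

theorem card_top (k a : ℕ) (τ : Finset ((ℕ × ℕ) × B)) : (top k a τ).card = cnt (k + 1) a τ := by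
  rw [top, Finset.card_image_of_injOn, cnt]
  intro P hP P' hP' h
  rw [Finset.mem_coe, Finset.mem_filter] at hP hP'
  exact Prod.ext (hP.2.trans hP'.2.symm) h

theorem mem_top {k a : ℕ} {τ : Finset ((ℕ × ℕ) × B)} {Q : B} :
    Q ∈ top k a τ ↔ ((a, k + 1), Q) ∈ τ := by
  rw [top, Finset.mem_image]
  constructor
  · rintro ⟨P, hP, rfl⟩
    rw [Finset.mem_filter] at hP
    rw [← hP.2]
    exact hP.1
  · intro h
    exact ⟨((a, k + 1), Q), Finset.mem_filter.2 ⟨h, rfl⟩, rfl⟩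

/-- the possible families of top tiles -/
noncomputable def SS (𝓑 : Finset B) (c : B → Finset κ) (k a : ℕ) (X : ℕ → Finset κ) :
    Finset (Finset B) :=
  𝓑.powerset.filter (fun S => (∀ P ∈ S, ∀ Q ∈ S, P ≠ Q → Disjoint (c P) (c Q)) ∧
    ∀ x ∈ D (a, k + 1), S.biUnion c ⊆ X x)

theorem mem_SS {𝓑 : Finset B} {c : B → Finset κ} {k a : ℕ} {X : ℕ → Finset κ} {S : Finset B} :
    S ∈ SS 𝓑 c k a X ↔ S ⊆ 𝓑 ∧ (∀ P ∈ S, ∀ Q ∈ S, P ≠ Q → Disjoint (c P) (c Q)) ∧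
    ∀ x ∈ D (a, k + 1), S.biUnion c ⊆ X x := by
  simp [SS]

theorem sub_part {𝓑 : Finset B} {c : B → Finset κ} {k a b : ℕ} {X : ℕ → Finset κ}
    {τ : Finset ((ℕ × ℕ) × B)} (hτ : τ ∈ PT 𝓑 c (k + 1) a X)
    (hD : D (b, k) ⊆ D (a, k + 1))
    (hF : ∀ J ∈ F (k + 1) a, ∀ x ∈ D (b, k), x ∈ D J → J = (a, k + 1) ∨ J ∈ F k b) :
    lt k b τ ∈ PT 𝓑 c k b (fun x => X x \ (top k a τ).biUnion c) := by
  rw [mem_PT] at hτ ⊢
  obtain ⟨h1, h2, h3⟩ := hτ
  refine ⟨?_, ?_, ?_⟩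
  · intro P hP
    rw [lt, Finset.mem_filter] at hP
    exact ⟨hP.2, (h1 P hP.1).2⟩
  · intro P hP P' hP' hne x hx hx'
    rw [lt, Finset.mem_filter] at hP hP'
    exact h2 P hP.1 P' hP'.1 hne x hx hx'
  · intro x hx
    rw [← h3 x (hD hx)]
    ext y
    simp only [lt, Finset.mem_biUnion, Finset.mem_filter, Finset.mem_sdiff, not_exists, not_and]
    constructor
    · rintro ⟨P, ⟨⟨hP, hPF⟩, hxP⟩, hy⟩
      refine ⟨⟨P, ⟨hP, hxP⟩, hy⟩, ?_⟩
      intro Q hQ hyQ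
      rw [mem_top] at hQ
      have hne : P ≠ ((a, k + 1), Q) := by
        intro h
        rw [h] at hPF
        exact F_top k a _ hPF
      have := h2 P hP _ hQ hne x hxP (hD hx)
      exact (Finset.disjoint_left.1 this) hy hyQ
    · rintro ⟨⟨P, ⟨hP, hxP⟩, hy⟩, h⟩
      refine ⟨P, ⟨⟨hP, ?_⟩, hxP⟩, hy⟩
      rcases hF P.1 (h1 P hP).1 x hx hxP with h4 | h4
      · exfalso
        refine h P.2 ?_ hy
        rw [mem_top, ← h4]
        exact hP
      · exact h4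

theorem left_part {𝓑 : Finset B} {c : B → Finset κ} {k a : ℕ} {X : ℕ → Finset κ}
    {τ : Finset ((ℕ × ℕ) × B)} (hτ : τ ∈ PT 𝓑 c (k + 1) a X) :
    lt k (2 * a) τ ∈ PT 𝓑 c k (2 * a) (fun x => X x \ (top k a τ).biUnion c) := by
  apply sub_part hτ
  · rw [D_succ]; exact Finset.subset_union_left
  · intro J hJ x hx hxJ
    simp only [F, Finset.mem_insert, Finset.mem_union] at hJ
    rcases hJ with h | h | h
    · exact Or.inl h
    · exact Or.inr h
    · exact absurd (F_sub h hxJ) (fun h3 => Finset.disjoint_left.1 (D_disj a k) hx h3)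

theorem right_part {𝓑 : Finset B} {c : B → Finset κ} {k a : ℕ} {X : ℕ → Finset κ}
    {τ : Finset ((ℕ × ℕ) × B)} (hτ : τ ∈ PT 𝓑 c (k + 1) a X) :
    lt k (2 * a + 1) τ ∈ PT 𝓑 c k (2 * a + 1) (fun x => X x \ (top k a τ).biUnion c) := by
  apply sub_part hτ
  · rw [D_succ]; exact Finset.subset_union_right
  · intro J hJ x hx hxJ
    simp only [F, Finset.mem_insert, Finset.mem_union] at hJ
    rcases hJ with h | h | h
    · exact Or.inl h
    · exact absurd (F_sub h hxJ) (fun h3 => Finset.disjoint_left.1 (D_disj a k) h3 hx)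
    · exact Or.inr h

theorem top_mem {𝓑 : Finset B} {c : B → Finset κ} {k a : ℕ} {X : ℕ → Finset κ}
    {τ : Finset ((ℕ × ℕ) × B)} (hτ : τ ∈ PT 𝓑 c (k + 1) a X) :
    top k a τ ∈ SS 𝓑 c k a X := by
  rw [mem_PT] at hτ
  rw [mem_SS]
  refine ⟨fun Q hQ => (hτ.1 _ (mem_top.1 hQ)).2, ?_, ?_⟩
  · intro P hP Q hQ hne
    obtain ⟨x, hx⟩ := D_nonempty (a, k + 1)
    exact hτ.2.1 _ (mem_top.1 hP) _ (mem_top.1 hQ) (fun h => hne (Prod.ext_iff.1 h).2) x hx hx
  · intro x hx y hy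
    obtain ⟨Q, hQ, hyQ⟩ := Finset.mem_biUnion.1 hy
    rw [← hτ.2.2 x hx, Finset.mem_biUnion]
    exact ⟨((a, k + 1), Q), Finset.mem_filter.2 ⟨mem_top.1 hQ, hx⟩, hyQ⟩

theorem parts_inj {𝓑 : Finset B} {c : B → Finset κ} {k a : ℕ} {X : ℕ → Finset κ}
    {τ τ' : Finset ((ℕ × ℕ) × B)} (hτ : τ ∈ PT 𝓑 c (k + 1) a X)
    (hτ' : τ' ∈ PT 𝓑 c (k + 1) a X) (h1 : top k a τ = top k a τ')
    (h2 : lt k (2 * a) τ = lt k (2 * a) τ') (h3 : lt k (2 * a + 1) τ = lt k (2 * a + 1) τ') :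
    τ = τ' := by
  have key : ∀ ρ ρ' : Finset ((ℕ × ℕ) × B), ρ ∈ PT 𝓑 c (k + 1) a X → top k a ρ = top k a ρ' →
      lt k (2 * a) ρ = lt k (2 * a) ρ' → lt k (2 * a + 1) ρ = lt k (2 * a + 1) ρ' → ρ ⊆ ρ' := by
    intro ρ ρ' hρ g1 g2 g3 P hP
    have h4 := ((mem_PT.1 hρ).1 P hP).1
    simp only [F, Finset.mem_insert, Finset.mem_union] at h4
    rcases h4 with h | h | h
    · have : P.2 ∈ top k a ρ := by rw [mem_top, ← h]; exact hP
      rw [g1, mem_top, ← h] at this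
      exact this
    · have : P ∈ lt k (2 * a) ρ := Finset.mem_filter.2 ⟨hP, h⟩
      rw [g2] at this
      exact (Finset.mem_filter.1 this).1
    · have : P ∈ lt k (2 * a + 1) ρ := Finset.mem_filter.2 ⟨hP, h⟩
      rw [g3] at this
      exact (Finset.mem_filter.1 this).1
  exact Finset.Subset.antisymm (key τ τ' hτ h1 h2 h3) (key τ' τ hτ' h1.symm h2.symm h3.symm)

theorem lt_filter (k b : ℕ) (τ : Finset ((ℕ × ℕ) × B)) :
    τ.filter (fun P => P.1 ∈ F k b) = (lt k b τ).filter (fun P => P.1 ∈ F k b) := by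
  rw [lt, Finset.filter_filter]
  apply Finset.filter_congr
  intro P _
  simp

/-- The induction step. -/
theorem W_step {𝓑 : Finset B} {c : B → Finset κ} (hne : ∀ P ∈ 𝓑, (c P).Nonempty) {s : ℝ}
    (hs : 0 ≤ s) (hG : Good 𝓑 c (2 * s)) {k : ℕ}
    (ih : ∀ (a : ℕ) (X : ℕ → Finset κ), ∑ τ ∈ PT 𝓑 c k a X, w s k a τ ≤ 1)
    (a : ℕ) (X : ℕ → Finset κ) :
    ∑ τ ∈ PT 𝓑 c (k + 1) a X, w s (k + 1) a τ ≤ 1 := by
  let X' : Finset B → ℕ → Finset κ := fun S x => X x \ S.biUnion c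
  let T0 : Finset B → Finset (Finset ((ℕ × ℕ) × B)) := fun S => PT 𝓑 c k (2 * a) (X' S)
  let T1 : Finset B → Finset (Finset ((ℕ × ℕ) × B)) := fun S => PT 𝓑 c k (2 * a + 1) (X' S)
  let G : (_ : Finset B) × (Finset ((ℕ × ℕ) × B) × Finset ((ℕ × ℕ) × B)) → ℝ := fun z =>
    s ^ z.1.card * ((u s k (2 * a) z.2.1 + u s k (2 * a + 1) z.2.2) / 2) *
      w s k (2 * a) z.2.1 * w s k (2 * a + 1) z.2.2
  let e : Finset ((ℕ × ℕ) × B) →
      (_ : Finset B) × (Finset ((ℕ × ℕ) × B) × Finset ((ℕ × ℕ) × B)) := fun τ =>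
    ⟨top k a τ, (lt k (2 * a) τ, lt k (2 * a + 1) τ)⟩
  let C := (SS 𝓑 c k a X).sigma (fun S => T0 S ×ˢ T1 S)
  have hGnn : ∀ z, 0 ≤ G z := by
    intro z
    have := u_nonneg hs k (2 * a) z.2.1
    have := u_nonneg hs k (2 * a + 1) z.2.2
    have := w_nonneg hs k (2 * a) z.2.1
    have := w_nonneg hs k (2 * a + 1) z.2.2
    positivity
  have hw : ∀ τ ∈ PT 𝓑 c (k + 1) a X, w s (k + 1) a τ = G (e τ) := by
    intro τ _
    simp only [G, e]
    rw [w, u_succ, card_top, u_congr s (lt_filter k (2 * a) τ),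
      u_congr s (lt_filter k (2 * a + 1) τ), w_congr s (lt_filter k (2 * a) τ),
      w_congr s (lt_filter k (2 * a + 1) τ)]
  have hinj : Set.InjOn e (PT 𝓑 c (k + 1) a X : Set (Finset ((ℕ × ℕ) × B))) := by
    intro τ hτ τ' hτ' h
    simp only [e, Sigma.mk.injEq, heq_eq_eq, Prod.mk.injEq] at h
    exact parts_inj hτ hτ' h.1 h.2.1 h.2.2
  have hmaps : ∀ τ ∈ PT 𝓑 c (k + 1) a X, e τ ∈ C := by
    intro τ hτ
    simp only [C, e, Finset.mem_sigma, Finset.mem_product]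
    exact ⟨top_mem hτ, left_part hτ, right_part hτ⟩
  have h1 : ∑ τ ∈ PT 𝓑 c (k + 1) a X, w s (k + 1) a τ ≤ ∑ z ∈ C, G z := by
    rw [Finset.sum_congr rfl hw, ← Finset.sum_image (f := G) hinj]
    apply Finset.sum_le_sum_of_subset_of_nonneg
    · intro z hz
      obtain ⟨τ, hτ, rfl⟩ := Finset.mem_image.1 hz
      exact hmaps τ hτ
    · intro z _ _
      exact hGnn z
  refine h1.trans ?_
  have h2 : ∑ z ∈ C, G z = ∑ S ∈ SS 𝓑 c k a X, s ^ S.card *
      (((∑ τ ∈ T0 S, u s k (2 * a) τ * w s k (2 * a) τ) * (∑ τ ∈ T1 S, w s k (2 * a + 1) τ) +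
        (∑ τ ∈ T0 S, w s k (2 * a) τ) *
          (∑ τ ∈ T1 S, u s k (2 * a + 1) τ * w s k (2 * a + 1) τ)) / 2) := by
    simp only [C]
    rw [Finset.sum_sigma]
    apply Finset.sum_congr rfl
    intro S _
    rw [Finset.sum_product]
    simp only [G]
    rw [Finset.sum_mul_sum, Finset.sum_mul_sum, ← Finset.sum_add_distrib, Finset.sum_div,
      Finset.mul_sum]
    apply Finset.sum_congr rfl
    intro τ0 _
    rw [← Finset.sum_add_distrib, Finset.sum_div, Finset.mul_sum]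
    apply Finset.sum_congr rfl
    intro τ1 _
    ring
  rw [h2]
  let g : Finset B → ℕ → ℝ := fun S x => ∑ σ ∈ Til 𝓑 c (X' S x), s ^ σ.card
  have h3 : ∀ S ∈ SS 𝓑 c k a X, s ^ S.card *
      (((∑ τ ∈ T0 S, u s k (2 * a) τ * w s k (2 * a) τ) * (∑ τ ∈ T1 S, w s k (2 * a + 1) τ) +
        (∑ τ ∈ T0 S, w s k (2 * a) τ) *
          (∑ τ ∈ T1 S, u s k (2 * a + 1) τ * w s k (2 * a + 1) τ)) / 2) ≤
      A (k + 1) a (fun x => s ^ S.card * g S x) := by
    intro S _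
    rw [A_mul_left]
    apply mul_le_mul_of_nonneg_left _ (by positivity)
    rw [A]
    have w0 := ih (2 * a) (X' S)
    have w1 := ih (2 * a + 1) (X' S)
    have u0 := U_bound hne hs w0
    have u1 := U_bound hne hs w1
    have n0 : 0 ≤ ∑ τ ∈ T0 S, w s k (2 * a) τ := Finset.sum_nonneg (fun τ _ => w_nonneg hs _ _ _)
    have n1 : 0 ≤ ∑ τ ∈ T1 S, w s k (2 * a + 1) τ :=
      Finset.sum_nonneg (fun τ _ => w_nonneg hs _ _ _)
    have m0 : 0 ≤ ∑ τ ∈ T0 S, u s k (2 * a) τ * w s k (2 * a) τ :=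
      Finset.sum_nonneg (fun τ _ => mul_nonneg (u_nonneg hs _ _ _) (w_nonneg hs _ _ _))
    have m1 : 0 ≤ ∑ τ ∈ T1 S, u s k (2 * a + 1) τ * w s k (2 * a + 1) τ :=
      Finset.sum_nonneg (fun τ _ => mul_nonneg (u_nonneg hs _ _ _) (w_nonneg hs _ _ _))
    have p0 : (∑ τ ∈ T0 S, u s k (2 * a) τ * w s k (2 * a) τ) *
        (∑ τ ∈ T1 S, w s k (2 * a + 1) τ) ≤ A k (2 * a) (g S) :=
      le_trans (mul_le_of_le_one_right m0 w1) u0
    have p1 : (∑ τ ∈ T0 S, w s k (2 * a) τ) *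
        (∑ τ ∈ T1 S, u s k (2 * a + 1) τ * w s k (2 * a + 1) τ) ≤ A k (2 * a + 1) (g S) :=
      le_trans (mul_le_of_le_one_left m1 w0) u1
    linarith
  refine (Finset.sum_le_sum h3).trans ?_
  rw [← A_sum, ← A_const (k + 1) a 1]
  apply A_mono
  intro x hx
  refine le_trans ?_ ((two_color hne hs (X x)).trans (hG (X x)))
  apply Finset.sum_le_sum_of_subset_of_nonneg
  · intro S hS
    rw [mem_SS] at hS
    rw [mem_Sub]
    exact ⟨hS.1, hS.2.1, hS.2.2 x hx⟩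
  · intro S _ _
    have : 0 ≤ g S x := Finset.sum_nonneg (fun σ _ => by positivity)
    positivity

theorem W_bound {𝓑 : Finset B} {c : B → Finset κ} (hne : ∀ P ∈ 𝓑, (c P).Nonempty) {s : ℝ}
    (hs : 0 ≤ s) (hG : Good 𝓑 c (2 * s)) (k : ℕ) :
    ∀ (a : ℕ) (X : ℕ → Finset κ), ∑ τ ∈ PT 𝓑 c k a X, w s k a τ ≤ 1 := by
  induction k with
  | zero =>
    intro a X
    have ha : a ∈ D (a, 0) := by simp [D]
    refine le_trans ?_ (hG (X a))
    have h0 : ∀ τ ∈ PT 𝓑 c 0 a X, w s 0 a τ = s ^ (slice τ a).card := by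
      intro τ hτ
      rw [w, u, A, nx_eq hne hτ]
    rw [Finset.sum_congr rfl h0]
    have hinj : Set.InjOn (fun τ : Finset ((ℕ × ℕ) × B) => slice τ a)
        (PT 𝓑 c 0 a X : Set (Finset ((ℕ × ℕ) × B))) := by
      have key : ∀ τ ∈ PT 𝓑 c 0 a X, τ = (slice τ a).image (fun Q => ((a, 0), Q)) := by
        intro τ hτ
        have h1 := (mem_PT.1 hτ).1
        ext P
        constructor
        · intro hP
          have h2 := (h1 P hP).1
          simp only [F, Finset.mem_singleton] at h2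
          refine Finset.mem_image.2 ⟨P.2, ?_, Prod.ext h2.symm rfl⟩
          refine Finset.mem_image.2 ⟨P, Finset.mem_filter.2 ⟨hP, ?_⟩, rfl⟩
          rw [h2]; exact ha
        · intro hP
          obtain ⟨Q, hQ, rfl⟩ := Finset.mem_image.1 hP
          obtain ⟨R, hR, rfl⟩ := Finset.mem_image.1 hQ
          have h3 := (Finset.mem_filter.1 hR).1
          have h2 := (h1 R h3).1
          simp only [F, Finset.mem_singleton] at h2
          rw [← h2]
          exact h3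
      intro τ hτ τ' hτ' h
      simp only at h
      rw [key τ hτ, key τ' hτ', h]
    rw [← Finset.sum_image (f := fun σ : Finset B => s ^ σ.card) hinj]
    calc ∑ σ ∈ (PT 𝓑 c 0 a X).image (fun τ => slice τ a), s ^ σ.card
        ≤ ∑ σ ∈ Til 𝓑 c (X a), s ^ σ.card := by
          apply Finset.sum_le_sum_of_subset_of_nonneg
          · intro σ hσ
            obtain ⟨τ, hτ, rfl⟩ := Finset.mem_image.1 hσ
            exact slice_mem hτ ha
          · intro σ _ _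
            positivity
      _ ≤ ∑ σ ∈ Til 𝓑 c (X a), (2 * s) ^ σ.card := by
          apply Finset.sum_le_sum
          intro σ _
          exact pow_le_pow_left₀ hs (by linarith) _
  | succ k ih => exact W_step hne hs hG ih

/-- The boxes of the product family. -/
noncomputable def pc (c : B → Finset κ) (P : (ℕ × ℕ) × B) : Finset (ℕ × κ) := D P.1 ×ˢ c P.2

/-- The product theorem. -/
theorem Good_prod {𝓑 : Finset B} {c : B → Finset κ} (hne : ∀ P ∈ 𝓑, (c P).Nonempty) {s : ℝ}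
    (hs : 0 ≤ s) (hs1 : s ≤ 1) (hG : Good 𝓑 c (2 * s)) (n : ℕ) :
    Good (F n 0 ×ˢ 𝓑) (pc c) (s ^ 2) := by
  intro X
  let X' : ℕ → Finset κ := fun x => (X.filter (fun z => z.1 = x)).image Prod.snd
  have hX' : ∀ x y, y ∈ X' x ↔ (x, y) ∈ X := by
    intro x y
    simp only [X', Finset.mem_image, Finset.mem_filter]
    constructor
    · rintro ⟨z, ⟨h1, h2⟩, rfl⟩
      rw [← h2]; exact h1
    · intro h
      exact ⟨(x, y), ⟨h, rfl⟩, rfl⟩
  have hsub : Til (F n 0 ×ˢ 𝓑) (pc c) X ⊆ PT 𝓑 c n 0 X' := by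
    intro τ hτ
    rw [mem_Til] at hτ
    rw [mem_PT]
    refine ⟨fun P hP => Finset.mem_product.1 (hτ.1 hP), ?_, ?_⟩
    · intro P hP P' hP' hne' x hx hx'
      have := hτ.2.1 P hP P' hP' hne'
      rw [pc, pc, Finset.disjoint_product] at this
      rcases this with h | h
      · exact absurd hx' (Finset.disjoint_left.1 h hx)
      · exact h
    · intro x hx
      ext y
      rw [hX', ← hτ.2.2]
      simp only [Finset.mem_biUnion, Finset.mem_filter, pc, Finset.mem_product]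
      constructor
      · rintro ⟨P, ⟨h1, h2⟩, h3⟩; exact ⟨P, h1, h2, h3⟩
      · rintro ⟨P, h1, h2, h3⟩; exact ⟨P, ⟨h1, h2⟩, h3⟩
  calc ∑ τ ∈ Til (F n 0 ×ˢ 𝓑) (pc c) X, (s ^ 2) ^ τ.card
      ≤ ∑ τ ∈ Til (F n 0 ×ˢ 𝓑) (pc c) X, w s n 0 τ := by
        apply Finset.sum_le_sum
        intro τ hτ
        have h1 := wu_ge hs n 0 τ
        have h2 : tot n 0 τ = τ.card := by
          rw [tot]
          congr 1
          apply Finset.filter_true_of_mem
          intro P hP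
          exact (Finset.mem_product.1 ((mem_Til.1 hτ).1 hP)).1
        rw [h2, pow_mul] at h1
        refine h1.trans ?_
        exact mul_le_of_le_one_right (w_nonneg hs _ _ _) (u_le_one hs hs1 _ _ _)
    _ ≤ ∑ τ ∈ PT 𝓑 c n 0 X', w s n 0 τ :=
        Finset.sum_le_sum_of_subset_of_nonneg hsub (fun τ _ _ => w_nonneg hs _ _ _)
    _ ≤ 1 := W_bound hne hs hG n 0 X'

theorem pc_nonempty {𝓑 : Finset B} {c : B → Finset κ} (hne : ∀ P ∈ 𝓑, (c P).Nonempty) (n : ℕ) :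
    ∀ P ∈ F n 0 ×ˢ 𝓑, (pc c P).Nonempty := by
  intro P hP
  rw [Finset.mem_product] at hP
  exact Finset.Nonempty.product (D_nonempty _) (hne _ hP.2)

end Pool.Agent.H582R3
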